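import Pool.Agent.Q226.TM.Exact

set_option autoImplicit false

/-!
# The induction for the diagonal values
-/

namespace Q226.TM

theorem Vals.l0 {k : ℕ} (v : Vals k) : hd (dl kap) k k = tau k := by
  rw [L_eq, v.c1, ← pow_succ', ← pow_mul]
  rw [Even.neg_one_pow (by rw [mul_comm]; exact Nat.even_mul_succ_self k), one_mul]

theorem Vals.l1 {k : ℕ} (v : Vals k) : hd (dl kap) (k + 1) k = (-1) ^ k * tau k := by
  rw [L_eq, v.c2, ← pow_succ', ← pow_mul]
  congr 1
  rcases Nat.even_or_odd k with h | h
  · rw [h.neg_one_pow, (h.mul_left _).neg_one_pow]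
  · have h2 : Odd (k + 1 + 1) := by
      obtain ⟨a, rfl⟩ := h
      exact ⟨a + 1, by ring⟩
    rw [h.neg_one_pow, (h2.mul h).neg_one_pow]

theorem en_mul (k : ℕ) : en k * en k = tau (k + k) := by
  rcases Nat.even_or_odd' k with ⟨i, rfl | rfl⟩
  · rw [two_mul, en_even, tau_four]
    linear_combination (tau i * tau i) * neg_sq i + tau_sq i
  · rw [two_mul, en_odd, tau_four_two]; ring

theorem en_mul' (k : ℕ) : en k * en k = tau (k + k + 1) := by
  rcases Nat.even_or_odd' k with ⟨i, rfl | rfl⟩
  · rw [two_mul, en_even, tau_four_one]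
    linear_combination (tau i * tau i) * neg_sq i + tau_sq i
  · rw [two_mul, en_odd, tau_four_three]; ring

theorem en_succ_mul (k : ℕ) : en k * en (k + 1) = 0 := by
  rcases Nat.even_or_odd' k with ⟨i, rfl | rfl⟩
  · rw [two_mul, en_odd]; ring
  · rw [two_mul, en_odd]; ring

theorem vals_zero : Vals 0 := by
  have t0 := tau_zero
  have t1 : tau 1 = 1 := by rw [tau_rec]; simp [tau_zero]
  refine ⟨?_, ?_, ?_, ?_, ?_, ?_, ?_, ?_, ?_, ?_⟩
  · rw [hd_one, t0]; simp [en, t0]
  · rw [hd_one, t1]; simp [en, t0]
  · rw [hd_zero]; simp [en, t0]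
  · rw [hd_zero]; simp [en, t0]
  · rw [hd_zero]; simp [en, t0]
  · rw [hd_zero, t0]
  · rw [hd_zero, t0]
  · rw [hd_one]; simp [kap]
  · rw [hd_one]; simp [kap]
  · rw [hd_zero, t0]

theorem neg_pow_even (i : ℕ) : (-1 : ℤ) ^ (i + i) = 1 := by
  rw [← two_mul, pow_mul]; simp

theorem vals_even (k : ℕ) (v : ∀ m, m < k + k → Vals m) (hk : 1 ≤ k) : Vals (k + k) := by
  have w := v k (by omega)
  have hs := neg_sq k
  have ht := tau_sq k
  have hen := en_mul k
  refine ⟨?_, ?_, ?_, ?_, ?_, ?_, ?_, ?_, ?_, ?_⟩
  · have e := A_even k (k + 1) k (by omega) le_rfl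
    rw [w.km, w.l0] at e
    rw [show k + k + 1 = k + 1 + k by omega, show hd tau (k + k) = hd tau (2 * k) by rw [two_mul], e,
      en_even]
    linear_combination (-1) ^ k * ht
  · have e := A_odd_odd k k
    rw [w.km, w.l1] at e
    rw [show hd tau (k + k + 1) (k + k + 1) = hd tau (2 * k + 1) (k + 1 + k) by
      rw [two_mul, show k + 1 + k = k + k + 1 by omega], e, en_even]
    linear_combination (-1) ^ k * tau k * tau k * hs + (-1) ^ k * ht
  · have e := A_odd_even k k
    rw [w.l0, w.k1] at e
    rw [show hd tau (k + k + 1) (k + k) = hd tau (2 * k + 1) (k + k) by rw [two_mul], e, en_even]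
    linear_combination (-1) ^ k * ht
  · have e := A_even (k + 1) k k le_rfl (by omega)
    rw [w.k1, w.l1] at e
    rw [show k + k + 2 = 2 * (k + 1) by omega, e, en_even]
    linear_combination (-1) ^ k * ht
  · have e := B_odd k k k le_rfl (by omega)
    rw [w.l0, w.l1] at e
    rw [show hd (dl tau) (k + k + 1) (k + k) = hd (dl tau) (2 * k + 1) (k + k) by rw [two_mul], e,
      en_even]
    linear_combination (-1) ^ k * ht
  · have e := C_odd_even k k
    rw [w.a1] at e
    rw [show hd dbl (k + k + 1) (k + k) = hd dbl (2 * k + 1) (k + k) by rw [two_mul], e]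
    rcases Nat.even_or_odd' k with ⟨i, rfl | rfl⟩
    · have wi := v i (by omega)
      have hb := B_even_even i i
      rw [wi.l0] at hb
      rw [show hd (dl tau) (2 * i) (2 * i) = hd (dl tau) (2 * i) (i + i) by rw [two_mul i], hb,
        two_mul, neg_pow_even, en_even, tau_four]
      linear_combination (tau i ^ 3) * neg_sq i + (tau i + 1) * tau_sq i
    · rw [two_mul, en_odd, tau_four_two]; ring
  · have e := C_even (k + 1) k k le_rfl (by omega)
    rw [w.a1, w.b1, hen] at e
    rw [show k + k + 2 = 2 * (k + 1) by omega, e]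
  · have e := K_even k (k + 1) k (by omega) le_rfl
    rw [w.am, w.a1, hen] at e
    rw [show k + k + 1 = k + 1 + k by omega, show hd kap (k + k) = hd kap (2 * k) by rw [two_mul], e,
      neg_pow_even, one_mul]
  · have e := K_odd_odd k k
    rw [show hd kap (k + k + 1) (k + k + 1) = hd kap (2 * k + 1) (k + 1 + k) by
      rw [two_mul, show k + 1 + k = k + k + 1 by omega], e]
  · have e := K_odd_even k k
    rw [w.a1, sq, hen] at e
    rw [show hd kap (k + k + 1) (k + k) = hd kap (2 * k + 1) (k + k) by rw [two_mul], e]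
    rcases Nat.even_or_odd' k with ⟨i, rfl | rfl⟩
    · rw [two_mul, neg_pow_even, one_mul]
    · rw [two_mul, tau_four_two]; ring

theorem vals_odd (k : ℕ) (v : ∀ m, m < k + k + 1 → Vals m) : Vals (k + k + 1) := by
  have w := v k (by omega)
  have hen := en_mul' k
  have a1 : hd tau (k + k + 1 + 1) (k + k + 1) = en (k + k + 1) := by
    have e := A_even (k + 1) (k + 1) k (by omega) le_rfl
    rw [w.k0] at e
    rw [show k + k + 1 + 1 = 2 * (k + 1) by omega, show k + k + 1 = k + 1 + k by omega, e,
      show k + 1 + k = k + k + 1 by omega, en_odd]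
    ring
  refine ⟨?_, ?_, a1, ?_, ?_, ?_, ?_, ?_, ?_, ?_⟩
  · have e := A_odd_even k (k + 1)
    rw [w.k0] at e
    rw [show hd tau (k + k + 1) (k + k + 1 + 1) = hd tau (2 * k + 1) (k + 1 + (k + 1)) by
      rw [two_mul, show k + 1 + (k + 1) = k + k + 1 + 1 by omega], e, en_odd]
    ring
  · have e := A_even (k + 1) (k + 1) (k + 1) le_rfl (by omega)
    rw [w.k0] at e
    rw [show hd tau (k + k + 1 + 1) (k + k + 1 + 1) = hd tau (2 * (k + 1)) (k + 1 + (k + 1)) by
      rw [show 2 * (k + 1) = k + k + 1 + 1 by omega, show k + 1 + (k + 1) = k + k + 1 + 1 by omega],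
      e, en_odd]
    ring
  · have e := A_odd_odd (k + 1) k
    rw [w.k0] at e
    rw [show k + k + 1 + 2 = 2 * (k + 1) + 1 by omega, show k + k + 1 = k + 1 + k by omega, e,
      show k + 1 + k = k + k + 1 by omega, en_odd]
    ring
  · have e := B_even_odd (k + 1) k
    rw [show k + k + 1 + 1 = 2 * (k + 1) by omega, show k + k + 1 = k + 1 + k by omega, e,
      show k + 1 + k = k + k + 1 by omega, en_odd]
  · have e := C_even (k + 1) (k + 1) k (by omega) le_rfl
    rw [w.a0, w.b1, hen] at e
    rw [show hd dbl (k + k + 1 + 1) (k + k + 1) = hd dbl (2 * (k + 1)) (k + 1 + k) by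
      rw [show 2 * (k + 1) = k + k + 1 + 1 by omega, show k + 1 + k = k + k + 1 by omega], e]
  · have e := C_odd_odd (k + 1) k
    rw [w.a0] at e
    rw [show hd dbl (k + k + 1 + 2) (k + k + 1) = hd dbl (2 * (k + 1) + 1) (k + 1 + k) by
      rw [show 2 * (k + 1) + 1 = k + k + 1 + 2 by omega, show k + 1 + k = k + k + 1 by omega], e]
    rcases Nat.even_or_odd' k with ⟨i, rfl | rfl⟩
    · have wi := v i (by omega)
      have hb := B_even_even (i + 1) i
      rw [wi.l1] at hb
      rw [show hd (dl tau) (2 * i + 1 + 1) (2 * i) = hd (dl tau) (2 * (i + 1)) (i + i) by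
        rw [show 2 * i + 1 + 1 = 2 * (i + 1) by omega, two_mul i], hb,
        two_mul, neg_pow_even, en_even, tau_four_one]
      linear_combination (tau i ^ 3) * ((-1) ^ i * (-1) ^ i + 1) * neg_sq i +
        (tau i + 1) * tau_sq i
    · rw [two_mul, en_odd, tau_four_three]; ring
  · have e := K_odd_even k (k + 1)
    rw [w.a0, sq, hen] at e
    rw [show hd kap (k + k + 1) (k + k + 1 + 1) = hd kap (2 * k + 1) (k + 1 + (k + 1)) by
      rw [two_mul, show k + 1 + (k + 1) = k + k + 1 + 1 by omega], e]
    rcases Nat.even_or_odd' k with ⟨i, rfl | rfl⟩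
    · rw [two_mul, pow_succ, pow_succ, neg_pow_even (i + i), neg_pow_even]
    · rw [two_mul, tau_four_three]; ring
  · have e := K_even (k + 1) (k + 1) (k + 1) le_rfl (by omega)
    have h1 : hd tau (k + 1 + 1) (k + 1) = en (k + 1) := by
      rcases Nat.eq_zero_or_pos k with rfl | hk
      · exact a1
      · exact (v (k + 1) (by omega)).a1
    rw [w.a0, h1, en_succ_mul] at e
    rw [show hd kap (k + k + 1 + 1) (k + k + 1 + 1) = hd kap (2 * (k + 1)) (k + 1 + (k + 1)) by
      rw [show 2 * (k + 1) = k + k + 1 + 1 by omega, show k + 1 + (k + 1) = k + k + 1 + 1 by omega],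
      e]
  · have e := K_even (k + 1) (k + 1) k (by omega) le_rfl
    rw [w.a0, w.a2, hen] at e
    rw [show hd kap (k + k + 1 + 1) (k + k + 1) = hd kap (2 * (k + 1)) (k + 1 + k) by
      rw [show 2 * (k + 1) = k + k + 1 + 1 by omega, show k + 1 + k = k + k + 1 by omega], e]

theorem vals (n : ℕ) : Vals n := by
  induction n using Nat.strong_induction_on with
  | _ n ih =>
    rcases Nat.eq_zero_or_pos n with rfl | hn
    · exact vals_zero
    · rcases Nat.even_or_odd' n with ⟨k, rfl | rfl⟩
      · rw [two_mul] at ih ⊢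
        exact vals_even k ih (by omega)
      · rw [two_mul] at ih ⊢
        exact vals_odd k ih

/-- the diagonal Hankel determinants -/
theorem hankel_diag (G : PowerSeries (ZMod 2)) (h0 : PowerSeries.constantCoeff G = 0)
    (h : thueMorse.subst G = PowerSeries.X) (n : ℕ) :
    (Matrix.of fun i j : Fin n => ((PowerSeries.coeff (n + i + j + 1) G).val : ℤ)).det = tau n := by
  have e : (Matrix.of fun i j : Fin n => ((PowerSeries.coeff (n + i + j + 1) G).val : ℤ)) =
      hm dbl (n + 2) n := by
    ext i j
    simp only [Matrix.of_apply, hm]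
    rw [val_coeff G h0 h _ (by omega)]
    congr 1
    omega
  rw [e]
  exact (vals n).c2

/-- the digits in base `4` are `0` or `1` if and only if the number is a sum of distinct powers of
`4` -/
theorem tau_iff (n : ℕ) : tau n = 1 ↔ ∃ S : Finset ℕ, n = ∑ k ∈ S, 4 ^ k := by
  constructor
  · intro h
    induction n using Nat.strong_induction_on with
    | _ n ih =>
      rcases Nat.eq_zero_or_pos n with rfl | hn
      · exact ⟨∅, by simp⟩
      · rw [tau_rec] at h
        by_cases h2 : n % 4 < 2
        swap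
        · rw [if_neg h2] at h
          exact absurd h (by norm_num)
        rw [if_pos h2] at h
        obtain ⟨S, hS⟩ := ih (n / 4) (by omega) h
        have hs : ∑ k ∈ S.map ⟨Nat.succ, Nat.succ_injective⟩, 4 ^ k = 4 * (n / 4) := by
          rw [Finset.sum_map, hS, Finset.mul_sum]
          apply Finset.sum_congr rfl
          intro k _
          simp [pow_succ, mul_comm]
        rcases Nat.lt_or_ge (n % 4) 1 with h3 | h3
        · exact ⟨_, by rw [hs]; omega⟩
        · refine ⟨insert 0 (S.map ⟨Nat.succ, Nat.succ_injective⟩), ?_⟩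
          rw [Finset.sum_insert (by simp), hs]
          omega
  · rintro ⟨S, hS⟩
    induction n using Nat.strong_induction_on generalizing S with
    | _ n ih =>
      rcases Nat.eq_zero_or_pos n with rfl | hn
      · exact tau_zero
      · set T : Finset ℕ := (S.erase 0).image Nat.pred with hT
        have hinj : Set.InjOn Nat.pred (S.erase 0 : Finset ℕ) := by
          intro a ha b hb hab
          simp only [Finset.coe_erase, Set.mem_diff, Finset.mem_coe, Set.mem_singleton_iff] at ha hb
          have := Nat.pred_eq_sub_one (n := a)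
          have := Nat.pred_eq_sub_one (n := b)
          omega
        have h1 : 4 * ∑ k ∈ T, 4 ^ k = ∑ k ∈ S.erase 0, 4 ^ k := by
          rw [hT, Finset.sum_image hinj, Finset.mul_sum]
          apply Finset.sum_congr rfl
          intro k hk
          have hk0 : k ≠ 0 := Finset.ne_of_mem_erase hk
          obtain ⟨j, rfl⟩ := Nat.exists_eq_succ_of_ne_zero hk0
          simp [pow_succ, mul_comm]
        by_cases h0 : 0 ∈ S
        · have h2 : ∑ k ∈ S, 4 ^ k = ∑ k ∈ S.erase 0, 4 ^ k + 1 := by
            rw [← Finset.sum_erase_add _ _ h0]; simp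
          rw [tau_rec, if_pos (by omega)]
          exact ih (n / 4) (by omega) T (by omega)
        · rw [Finset.erase_eq_of_notMem h0] at h1
          rw [tau_rec, if_pos (by omega)]
          exact ih (n / 4) (by omega) T (by omega)

end Q226.TM
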