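import Pool.Agent.Q226.TM.Series

set_option autoImplicit false

/-!
# Exact values of the Hankel determinants on the diagonal
-/

namespace Q226.TM

open Matrix

/-! ### Exact signs -/

theorem det_anti_exact {k : ℕ} (B C : Matrix (Fin k) (Fin k) ℤ) :
    (Matrix.fromBlocks 0 B C 0).det = (-1) ^ k * (C.det * B.det) := by
  have h : Matrix.fromBlocks 0 B C 0 =
      (Matrix.fromBlocks 1 1 0 1 * Matrix.fromBlocks 1 0 (-1) 1 * Matrix.fromBlocks 1 1 0 1) *
        Matrix.fromBlocks (-C) 0 0 B := by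
    simp [Matrix.fromBlocks_multiply]
  rw [h, Matrix.det_mul, Matrix.det_mul, Matrix.det_mul, Matrix.det_fromBlocks_zero₂₁,
    Matrix.det_fromBlocks_zero₁₂, Matrix.det_fromBlocks_zero₂₁, Matrix.det_neg, Fintype.card_fin]
  simp only [Matrix.det_one]
  ring

section spread

variable {y u : ℕ → ℤ}

theorem spread_even (h0 : ∀ m, y (2 * m) = u m) (h1 : ∀ m, y (2 * m + 1) = 0) (s p q : ℕ)
    (hpq : q ≤ p) (hqp : p ≤ q + 1) : hd y (2 * s) (p + q) = hd u s p * hd u (s + 1) q := by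
  rw [hd_split _ _ _ _ hpq hqp]
  have e : (Matrix.fromBlocks
    (Matrix.of fun a b : Fin p => y (2 * s + 2 * a + 2 * b))
    (Matrix.of fun (a : Fin p) (b : Fin q) => y (2 * s + 2 * a + 2 * b + 1))
    (Matrix.of fun (a : Fin q) (b : Fin p) => y (2 * s + 2 * a + 2 * b + 1))
    (Matrix.of fun a b : Fin q => y (2 * s + 2 * a + 2 * b + 2))) =
    Matrix.fromBlocks (hm u s p) 0 0 (hm u (s + 1) q) := by
    ext i j
    rcases i with a | a <;> rcases j with b | b <;>
      simp only [hm, Matrix.of_apply, Matrix.fromBlocks_apply₁₁, Matrix.fromBlocks_apply₁₂,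
        Matrix.fromBlocks_apply₂₁, Matrix.fromBlocks_apply₂₂, Matrix.zero_apply]
    · rw [← h0]; congr 1; omega
    · rw [← h1 (s + a + b)]; congr 1; omega
    · rw [← h1 (s + a + b)]; congr 1; omega
    · rw [← h0]; congr 1; omega
  rw [e, Matrix.det_fromBlocks_zero₂₁]
  rfl

theorem spread_odd_even (h0 : ∀ m, y (2 * m) = u m) (h1 : ∀ m, y (2 * m + 1) = 0) (s k : ℕ) :
    hd y (2 * s + 1) (k + k) = (-1) ^ k * hd u (s + 1) k ^ 2 := by
  rw [hd_split _ _ _ _ le_rfl (Nat.le_succ _)]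
  have e : (Matrix.fromBlocks
    (Matrix.of fun a b : Fin k => y (2 * s + 1 + 2 * a + 2 * b))
    (Matrix.of fun (a : Fin k) (b : Fin k) => y (2 * s + 1 + 2 * a + 2 * b + 1))
    (Matrix.of fun (a : Fin k) (b : Fin k) => y (2 * s + 1 + 2 * a + 2 * b + 1))
    (Matrix.of fun a b : Fin k => y (2 * s + 1 + 2 * a + 2 * b + 2))) =
    Matrix.fromBlocks 0 (hm u (s + 1) k) (hm u (s + 1) k) 0 := by
    ext i j
    rcases i with a | a <;> rcases j with b | b <;>
      simp only [hm, Matrix.of_apply, Matrix.fromBlocks_apply₁₁, Matrix.fromBlocks_apply₁₂,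
        Matrix.fromBlocks_apply₂₁, Matrix.fromBlocks_apply₂₂, Matrix.zero_apply]
    · rw [← h1 (s + a + b)]; congr 1; omega
    · rw [← h0]; congr 1; omega
    · rw [← h0]; congr 1; omega
    · rw [← h1 (s + a + b + 1)]; congr 1; omega
  rw [e, det_anti_exact, hd]
  ring

theorem spread_odd_odd (h1 : ∀ m, y (2 * m + 1) = 0) (s k : ℕ) :
    hd y (2 * s + 1) (k + 1 + k) = 0 := by
  rw [hd_split _ _ _ _ (Nat.le_succ _) le_rfl]
  have e : (Matrix.fromBlocks
    (Matrix.of fun a b : Fin (k + 1) => y (2 * s + 1 + 2 * a + 2 * b))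
    (Matrix.of fun (a : Fin (k + 1)) (b : Fin k) => y (2 * s + 1 + 2 * a + 2 * b + 1))
    (Matrix.of fun (a : Fin k) (b : Fin (k + 1)) => y (2 * s + 1 + 2 * a + 2 * b + 1))
    (Matrix.of fun a b : Fin k => y (2 * s + 1 + 2 * a + 2 * b + 2))) =
    Matrix.fromBlocks 0
      (Matrix.of fun (a : Fin (k + 1)) (b : Fin k) => y (2 * s + 1 + 2 * a + 2 * b + 1))
      (Matrix.of fun (a : Fin k) (b : Fin (k + 1)) => y (2 * s + 1 + 2 * a + 2 * b + 1)) 0 := by
    ext i j
    rcases i with a | a <;> rcases j with b | b <;>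
      simp only [Matrix.of_apply, Matrix.fromBlocks_apply₁₁, Matrix.fromBlocks_apply₁₂,
        Matrix.fromBlocks_apply₂₁, Matrix.fromBlocks_apply₂₂, Matrix.zero_apply]
    · rw [← h1 (s + a + b)]; congr 1; omega
    · rw [← h1 (s + a + b + 1)]; congr 1; omega
  rw [e, det_zero_block]

theorem spread'_odd (h0 : ∀ m, y (2 * m) = 0) (h1 : ∀ m, y (2 * m + 1) = u m) (s p q : ℕ)
    (hpq : q ≤ p) (hqp : p ≤ q + 1) : hd y (2 * s + 1) (p + q) = hd u s p * hd u (s + 1) q := by
  rw [hd_split _ _ _ _ hpq hqp]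
  have e : (Matrix.fromBlocks
    (Matrix.of fun a b : Fin p => y (2 * s + 1 + 2 * a + 2 * b))
    (Matrix.of fun (a : Fin p) (b : Fin q) => y (2 * s + 1 + 2 * a + 2 * b + 1))
    (Matrix.of fun (a : Fin q) (b : Fin p) => y (2 * s + 1 + 2 * a + 2 * b + 1))
    (Matrix.of fun a b : Fin q => y (2 * s + 1 + 2 * a + 2 * b + 2))) =
    Matrix.fromBlocks (hm u s p) 0 0 (hm u (s + 1) q) := by
    ext i j
    rcases i with a | a <;> rcases j with b | b <;>
      simp only [hm, Matrix.of_apply, Matrix.fromBlocks_apply₁₁, Matrix.fromBlocks_apply₁₂,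
        Matrix.fromBlocks_apply₂₁, Matrix.fromBlocks_apply₂₂, Matrix.zero_apply]
    · rw [← h1]; congr 1; omega
    · rw [← h0 (s + a + b + 1)]; congr 1; omega
    · rw [← h0 (s + a + b + 1)]; congr 1; omega
    · rw [← h1]; congr 1; omega
  rw [e, Matrix.det_fromBlocks_zero₂₁]
  rfl

theorem spread'_even_even (h0 : ∀ m, y (2 * m) = 0) (h1 : ∀ m, y (2 * m + 1) = u m) (s k : ℕ) :
    hd y (2 * s) (k + k) = (-1) ^ k * hd u s k ^ 2 := by
  rw [hd_split _ _ _ _ le_rfl (Nat.le_succ _)]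
  have e : (Matrix.fromBlocks
    (Matrix.of fun a b : Fin k => y (2 * s + 2 * a + 2 * b))
    (Matrix.of fun (a : Fin k) (b : Fin k) => y (2 * s + 2 * a + 2 * b + 1))
    (Matrix.of fun (a : Fin k) (b : Fin k) => y (2 * s + 2 * a + 2 * b + 1))
    (Matrix.of fun a b : Fin k => y (2 * s + 2 * a + 2 * b + 2))) =
    Matrix.fromBlocks 0 (hm u s k) (hm u s k) 0 := by
    ext i j
    rcases i with a | a <;> rcases j with b | b <;>
      simp only [hm, Matrix.of_apply, Matrix.fromBlocks_apply₁₁, Matrix.fromBlocks_apply₁₂,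
        Matrix.fromBlocks_apply₂₁, Matrix.fromBlocks_apply₂₂, Matrix.zero_apply]
    · rw [← h0 (s + a + b)]; congr 1; omega
    · rw [← h1]; congr 1; omega
    · rw [← h1]; congr 1; omega
    · rw [← h0 (s + a + b + 1)]; congr 1; omega
  rw [e, det_anti_exact, hd]
  ring

theorem spread'_even_odd (h0 : ∀ m, y (2 * m) = 0) (s k : ℕ) :
    hd y (2 * s) (k + 1 + k) = 0 := by
  rw [hd_split _ _ _ _ (Nat.le_succ _) le_rfl]
  have e : (Matrix.fromBlocks
    (Matrix.of fun a b : Fin (k + 1) => y (2 * s + 2 * a + 2 * b))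
    (Matrix.of fun (a : Fin (k + 1)) (b : Fin k) => y (2 * s + 2 * a + 2 * b + 1))
    (Matrix.of fun (a : Fin k) (b : Fin (k + 1)) => y (2 * s + 2 * a + 2 * b + 1))
    (Matrix.of fun a b : Fin k => y (2 * s + 2 * a + 2 * b + 2))) =
    Matrix.fromBlocks 0
      (Matrix.of fun (a : Fin (k + 1)) (b : Fin k) => y (2 * s + 2 * a + 2 * b + 1))
      (Matrix.of fun (a : Fin k) (b : Fin (k + 1)) => y (2 * s + 2 * a + 2 * b + 1)) 0 := by
    ext i j
    rcases i with a | a <;> rcases j with b | b <;>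
      simp only [Matrix.of_apply, Matrix.fromBlocks_apply₁₁, Matrix.fromBlocks_apply₁₂,
        Matrix.fromBlocks_apply₂₁, Matrix.fromBlocks_apply₂₂, Matrix.zero_apply]
    · rw [← h0 (s + a + b)]; congr 1; omega
    · rw [← h0 (s + a + b + 1)]; congr 1; omega
  rw [e, det_zero_block]

end spread

theorem twist_exact {x y : ℕ → ℤ} (c : ℤ) (t : ℕ)
    (h : ∀ m, y m = c * (-1) ^ m * x (m + t)) (n r : ℕ) :
    hd y r n = (c * (-1) ^ r) ^ n * hd x (r + t) n := by
  have e : hm y r n = (c * (-1) ^ r) • (Matrix.diagonal (fun i : Fin n => (-1 : ℤ) ^ (i : ℕ)) *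
      hm x (r + t) n * Matrix.diagonal (fun i : Fin n => (-1 : ℤ) ^ (i : ℕ))) := by
    ext i j
    rw [Matrix.smul_apply, Matrix.mul_diagonal, Matrix.diagonal_mul]
    simp only [hm, Matrix.of_apply, smul_eq_mul, h]
    rw [show r + (i : ℕ) + j + t = r + t + i + j by omega, pow_add, pow_add]
    ring
  have e2 : (∏ i : Fin n, (-1 : ℤ) ^ (i : ℕ)) * (∏ i : Fin n, (-1 : ℤ) ^ (i : ℕ)) = 1 := by
    rw [← Finset.prod_mul_distrib]
    apply Finset.prod_eq_one
    intro i _
    rw [← pow_add, ← two_mul, pow_mul]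
    simp
  rw [hd, e, Matrix.det_smul, Matrix.det_mul, Matrix.det_mul, Matrix.det_diagonal, Fintype.card_fin,
    hd]
  linear_combination (c * (-1) ^ r) ^ n * (hm x (r + t) n).det * e2

/-! ### The system of recursions -/

theorem A_even (s p q : ℕ) (h1 : q ≤ p) (h2 : p ≤ q + 1) :
    hd tau (2 * s) (p + q) = hd kap s p * hd (dl kap) s q := double_even tau_eq_kap s p q h1 h2

theorem A_odd_even (s k : ℕ) :
    hd tau (2 * s + 1) (k + k) = (-1) ^ k * hd (dl kap) s k * hd kap (s + 1) k :=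
  double_odd_even tau_eq_kap s k

theorem A_odd_odd (s k : ℕ) :
    hd tau (2 * s + 1) (k + 1 + k) = (-1) ^ k * hd kap s (k + 1) * hd (dl kap) (s + 1) k :=
  double_odd_odd tau_eq_kap s k

theorem C_even (s p q : ℕ) (h1 : q ≤ p) (h2 : p ≤ q + 1) :
    hd dbl (2 * s) (p + q) = hd tau s p * hd (dl tau) s q :=
  double_even (x := dbl) (u := tau) (fun _ => rfl) s p q h1 h2

theorem C_odd_even (s k : ℕ) :
    hd dbl (2 * s + 1) (k + k) = (-1) ^ k * hd (dl tau) s k * hd tau (s + 1) k :=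
  double_odd_even (x := dbl) (u := tau) (fun _ => rfl) s k

theorem C_odd_odd (s k : ℕ) :
    hd dbl (2 * s + 1) (k + 1 + k) = (-1) ^ k * hd tau s (k + 1) * hd (dl tau) (s + 1) k :=
  double_odd_odd (x := dbl) (u := tau) (fun _ => rfl) s k

theorem K_even (s p q : ℕ) (h1 : q ≤ p) (h2 : p ≤ q + 1) :
    hd kap (2 * s) (p + q) = hd tau s p * hd tau (s + 1) q := spread_even kap_even kap_odd s p q h1 h2

theorem K_odd_even (s k : ℕ) : hd kap (2 * s + 1) (k + k) = (-1) ^ k * hd tau (s + 1) k ^ 2 :=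
  spread_odd_even kap_even kap_odd s k

theorem K_odd_odd (s k : ℕ) : hd kap (2 * s + 1) (k + 1 + k) = 0 := spread_odd_odd kap_odd s k

theorem L_eq (r n : ℕ) : hd (dl kap) r n = ((-1) * (-1) ^ r) ^ n * hd dbl (r + 1) n :=
  twist_exact (-1) 1 dl_kap n r

theorem B_odd (s p q : ℕ) (h1 : q ≤ p) (h2 : p ≤ q + 1) :
    hd (dl tau) (2 * s + 1) (p + q) = hd (dl kap) s p * hd (dl kap) (s + 1) q :=
  spread'_odd dl_tau_even dl_tau_odd s p q h1 h2

theorem B_even_even (s k : ℕ) : hd (dl tau) (2 * s) (k + k) = (-1) ^ k * hd (dl kap) s k ^ 2 :=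
  spread'_even_even dl_tau_even dl_tau_odd s k

theorem B_even_odd (s k : ℕ) : hd (dl tau) (2 * s) (k + 1 + k) = 0 :=
  spread'_even_odd dl_tau_even s k

/-- the value of `hd tau (n + 1) n` -/
def en (n : ℕ) : ℤ := if n % 2 = 0 then (-1) ^ (n / 2) * tau (n / 2) else 0

theorem en_even (k : ℕ) : en (k + k) = (-1) ^ k * tau k := by
  rw [en, if_pos (by omega), show (k + k) / 2 = k by omega]

theorem en_odd (k : ℕ) : en (k + k + 1) = 0 := by
  rw [en, if_neg (by omega)]

theorem tau_sq (n : ℕ) : tau n * tau n = tau n := by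
  rcases tau_good n with h | h <;> rw [h] <;> rfl

theorem tau_four (k : ℕ) : tau (k + k + (k + k)) = tau k := by
  rw [tau_rec, if_pos (by omega), show (k + k + (k + k)) / 4 = k by omega]

theorem tau_four_one (k : ℕ) : tau (k + k + (k + k) + 1) = tau k := by
  rw [tau_rec, if_pos (by omega), show (k + k + (k + k) + 1) / 4 = k by omega]

theorem tau_four_two (k : ℕ) : tau (k + k + 1 + (k + k + 1)) = 0 := by
  rw [tau_rec, if_neg (by omega)]

theorem tau_four_three (k : ℕ) : tau (k + k + 1 + (k + k + 1) + 1) = 0 := by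
  rw [tau_rec, if_neg (by omega)]

theorem neg_sq (k : ℕ) : ((-1 : ℤ) ^ k) * (-1) ^ k = 1 := by
  rw [← pow_add, ← two_mul, pow_mul]
  simp

/-- The values on the lines close to the diagonal. -/
structure Vals (n : ℕ) : Prop where
  am : hd tau n (n + 1) = en n
  a0 : hd tau (n + 1) (n + 1) = en n
  a1 : hd tau (n + 1) n = en n
  a2 : hd tau (n + 2) n = en n
  b1 : hd (dl tau) (n + 1) n = en n
  c1 : hd dbl (n + 1) n = tau n
  c2 : hd dbl (n + 2) n = tau n
  km : hd kap n (n + 1) = (-1) ^ n * tau n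
  k0 : hd kap (n + 1) (n + 1) = 0
  k1 : hd kap (n + 1) n = tau n

end Q226.TM
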