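import Mathlib

set_option autoImplicit false

/-!
# Hankel determinants of sequences built by parity splitting
-/

namespace Q226.TM

open Matrix

/-- The `n × n` Hankel matrix of the sequence `x`, shifted by `r`. -/
def hm (x : ℕ → ℤ) (r n : ℕ) : Matrix (Fin n) (Fin n) ℤ := Matrix.of fun i j => x (r + i + j)

/-- The Hankel determinant. -/
def hd (x : ℕ → ℤ) (r n : ℕ) : ℤ := (hm x r n).det

/-- The number is `-1`, `0` or `1`. -/
def Good (z : ℤ) : Prop := z = -1 ∨ z = 0 ∨ z = 1

theorem Good.mul {a b : ℤ} (ha : Good a) (hb : Good b) : Good (a * b) := by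
  rcases ha with rfl | rfl | rfl <;> rcases hb with rfl | rfl | rfl <;> simp [Good]

theorem Good.neg {a : ℤ} (ha : Good a) : Good (-a) := by
  rcases ha with rfl | rfl | rfl <;> simp [Good]

theorem good_zero : Good 0 := Or.inr (Or.inl rfl)
theorem good_one : Good 1 := Or.inr (Or.inr rfl)
theorem good_neg_one : Good (-1) := Or.inl rfl

theorem good_neg_one_pow (n : ℕ) : Good ((-1) ^ n) := by
  rcases neg_one_pow_eq_or ℤ n with h | h <;> rw [h]
  · exact good_one
  · exact good_neg_one

theorem Good.pow {a : ℤ} (ha : Good a) (n : ℕ) : Good (a ^ n) := by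
  induction n with
  | zero => simpa using good_one
  | succ n ih => rw [pow_succ]; exact ih.mul ha

/-- forward differences -/
def dl (x : ℕ → ℤ) : ℕ → ℤ := fun m => x (m + 1) - x m

/-! ### Splitting the indices by parity -/

/-- even and odd indices -/
def pe (p q : ℕ) (h1 : q ≤ p) (h2 : p ≤ q + 1) : Fin p ⊕ Fin q → Fin (p + q)
  | Sum.inl a => ⟨2 * a, by omega⟩
  | Sum.inr b => ⟨2 * b + 1, by omega⟩

theorem pe_bij (p q : ℕ) (h1 : q ≤ p) (h2 : p ≤ q + 1) : Function.Bijective (pe p q h1 h2) := by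
  rw [Fintype.bijective_iff_injective_and_card]
  refine ⟨?_, by simp⟩
  rintro (a | a) (b | b) h <;> simp only [pe, Fin.mk.injEq] at h
  · congr 1; ext; omega
  · omega
  · omega
  · congr 1; ext; omega

theorem hd_split (x : ℕ → ℤ) (r p q : ℕ) (h1 : q ≤ p) (h2 : p ≤ q + 1) :
    hd x r (p + q) = (Matrix.fromBlocks
      (Matrix.of fun a b : Fin p => x (r + 2 * a + 2 * b))
      (Matrix.of fun (a : Fin p) (b : Fin q) => x (r + 2 * a + 2 * b + 1))
      (Matrix.of fun (a : Fin q) (b : Fin p) => x (r + 2 * a + 2 * b + 1))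
      (Matrix.of fun a b : Fin q => x (r + 2 * a + 2 * b + 2))).det := by
  rw [hd, ← Matrix.det_submatrix_equiv_self (Equiv.ofBijective _ (pe_bij p q h1 h2))]
  congr 1
  ext i j
  rcases i with a | a <;> rcases j with b | b <;>
    simp only [hm, Matrix.submatrix_apply, Matrix.of_apply, Equiv.ofBijective_apply, pe,
      Matrix.fromBlocks_apply₁₁, Matrix.fromBlocks_apply₁₂, Matrix.fromBlocks_apply₂₁,
      Matrix.fromBlocks_apply₂₂]
  · congr 1
  · congr 1; omega
  · congr 1; omega

theorem det_blocks {p q : ℕ} (A : Matrix (Fin p) (Fin p) ℤ) (J : Matrix (Fin p) (Fin q) ℤ)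
    (K : Matrix (Fin q) (Fin p) ℤ) (D : Matrix (Fin q) (Fin q) ℤ) :
    (Matrix.fromBlocks A (A * J) (K * A) (K * A * J + D)).det = A.det * D.det := by
  have h : Matrix.fromBlocks A (A * J) (K * A) (K * A * J + D) =
      Matrix.fromBlocks 1 0 K 1 * Matrix.fromBlocks A 0 0 D * Matrix.fromBlocks 1 J 0 1 := by
    simp [Matrix.fromBlocks_multiply]
  rw [h, Matrix.det_mul, Matrix.det_mul, Matrix.det_fromBlocks_zero₁₂,
    Matrix.det_fromBlocks_zero₂₁, Matrix.det_fromBlocks_zero₂₁]
  simp

theorem det_blocks' {k : ℕ} (D A : Matrix (Fin k) (Fin k) ℤ) :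
    (Matrix.fromBlocks (D + A) A A A).det = D.det * A.det := by
  have h : Matrix.fromBlocks (D + A) A A A =
      Matrix.fromBlocks 1 1 0 1 * Matrix.fromBlocks D 0 0 A * Matrix.fromBlocks 1 0 1 1 := by
    simp [Matrix.fromBlocks_multiply]
  rw [h, Matrix.det_mul, Matrix.det_mul, Matrix.det_fromBlocks_zero₂₁,
    Matrix.det_fromBlocks_zero₂₁, Matrix.det_fromBlocks_zero₁₂]
  simp

/-- the two halves of `n` -/
theorem halves (n : ℕ) : ∃ p q : ℕ, n = p + q ∧ q ≤ p ∧ p ≤ q + 1 ∧ p = (n + 1) / 2 ∧ q = n / 2 :=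
  ⟨(n + 1) / 2, n / 2, by omega, by omega, by omega, rfl, rfl⟩

/-! ### Repeated entries -/

section double

variable {x u : ℕ → ℤ} (hx : ∀ m, x m = u (m / 2))

include hx in
theorem double_even (s p q : ℕ) (h1 : q ≤ p) (h2 : p ≤ q + 1) :
    hd x (2 * s) (p + q) = hd u s p * hd (dl u) s q := by
  rw [hd_split _ _ _ _ h1 h2]
  have key := det_blocks (hm u s p)
    (Matrix.of fun (a : Fin p) (b : Fin q) => if (a : ℕ) = b then (1 : ℤ) else 0)
    (Matrix.of fun (a : Fin q) (b : Fin p) => if (a : ℕ) = b then (1 : ℤ) else 0)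
    (hm (dl u) s q)
  have e1 : hm u s p * (Matrix.of fun (a : Fin p) (b : Fin q) => if (a : ℕ) = b then (1 : ℤ) else 0)
      = Matrix.of fun (a : Fin p) (b : Fin q) => u (s + a + b) := by
    ext a b
    simp only [Matrix.mul_apply, hm, Matrix.of_apply, mul_ite, mul_one, mul_zero]
    rw [Finset.sum_eq_single (⟨b, by omega⟩ : Fin p)]
    · simp
    · intro c _ hc
      rw [if_neg]
      intro h
      exact hc (by ext; exact h)
    · simp
  have e2 : (Matrix.of fun (a : Fin q) (b : Fin p) => if (a : ℕ) = b then (1 : ℤ) else 0) * hm u s p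
      = Matrix.of fun (a : Fin q) (b : Fin p) => u (s + a + b) := by
    ext a b
    simp only [Matrix.mul_apply, hm, Matrix.of_apply, ite_mul, one_mul, zero_mul]
    rw [Finset.sum_eq_single (⟨a, by omega⟩ : Fin p)]
    · simp
    · intro c _ hc
      rw [if_neg]
      intro h
      exact hc (by ext; exact h.symm)
    · simp
  have e3 : (Matrix.of fun (a : Fin q) (b : Fin p) => u (s + a + b)) *
      (Matrix.of fun (a : Fin p) (b : Fin q) => if (a : ℕ) = b then (1 : ℤ) else 0)
      = Matrix.of fun (a : Fin q) (b : Fin q) => u (s + a + b) := by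
    ext a b
    simp only [Matrix.mul_apply, Matrix.of_apply, mul_ite, mul_one, mul_zero]
    rw [Finset.sum_eq_single (⟨b, by omega⟩ : Fin p)]
    · simp
    · intro c _ hc
      rw [if_neg]
      intro h
      exact hc (by ext; exact h)
    · simp
  rw [e1, e2, e3] at key
  rw [hd, hd, ← key]
  congr 1
  ext i j
  rcases i with a | a <;> rcases j with b | b <;>
    simp only [hm, Matrix.of_apply, Matrix.fromBlocks_apply₁₁, Matrix.fromBlocks_apply₁₂,
      Matrix.fromBlocks_apply₂₁, Matrix.fromBlocks_apply₂₂, hx, Matrix.add_apply, dl]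
  · congr 1; omega
  · congr 1; omega
  · congr 1; omega
  · rw [show (2 * s + 2 * (a : ℕ) + 2 * b + 2) / 2 = s + a + b + 1 by omega]; ring

include hx in
theorem double_odd_even (s k : ℕ) :
    hd x (2 * s + 1) (k + k) = (-1) ^ k * hd (dl u) s k * hd u (s + 1) k := by
  rw [hd_split _ _ _ _ le_rfl (Nat.le_succ _)]
  have key := det_blocks' (-hm (dl u) s k) (hm u (s + 1) k)
  rw [Matrix.det_neg, Fintype.card_fin] at key
  rw [hd, hd, ← key]
  congr 1
  ext i j
  rcases i with a | a <;> rcases j with b | b <;>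
    simp only [hm, Matrix.of_apply, Matrix.fromBlocks_apply₁₁, Matrix.fromBlocks_apply₁₂,
      Matrix.fromBlocks_apply₂₁, Matrix.fromBlocks_apply₂₂, hx, Matrix.add_apply, Matrix.neg_apply,
      dl]
  · rw [show (2 * s + 1 + 2 * (a : ℕ) + 2 * b) / 2 = s + a + b by omega,
      show s + 1 + (a : ℕ) + b = s + a + b + 1 by omega]; ring
  · congr 1; omega
  · congr 1; omega
  · congr 1; omega

include hx in
theorem double_odd_odd (s k : ℕ) :
    hd x (2 * s + 1) (k + 1 + k) = (-1) ^ k * hd u s (k + 1) * hd (dl u) (s + 1) k := by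
  rw [hd_split _ _ _ _ (Nat.le_succ _) le_rfl]
  have key := det_blocks (hm u s (k + 1))
    (Matrix.of fun (a : Fin (k + 1)) (b : Fin k) => if (a : ℕ) = b + 1 then (1 : ℤ) else 0)
    (Matrix.of fun (a : Fin k) (b : Fin (k + 1)) => if (a : ℕ) + 1 = b then (1 : ℤ) else 0)
    (-hm (dl u) (s + 1) k)
  have e1 : hm u s (k + 1) *
      (Matrix.of fun (a : Fin (k + 1)) (b : Fin k) => if (a : ℕ) = b + 1 then (1 : ℤ) else 0)
      = Matrix.of fun (a : Fin (k + 1)) (b : Fin k) => u (s + a + b + 1) := by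
    ext a b
    simp only [Matrix.mul_apply, hm, Matrix.of_apply, mul_ite, mul_one, mul_zero]
    rw [Finset.sum_eq_single (⟨b + 1, by omega⟩ : Fin (k + 1))]
    · simp [add_assoc]
    · intro c _ hc
      rw [if_neg]
      intro h
      exact hc (by ext; exact h)
    · simp
  have e2 : (Matrix.of fun (a : Fin k) (b : Fin (k + 1)) => if (a : ℕ) + 1 = b then (1 : ℤ) else 0)
      * hm u s (k + 1)
      = Matrix.of fun (a : Fin k) (b : Fin (k + 1)) => u (s + a + 1 + b) := by
    ext a b
    simp only [Matrix.mul_apply, hm, Matrix.of_apply, ite_mul, one_mul, zero_mul]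
    rw [Finset.sum_eq_single (⟨a + 1, by omega⟩ : Fin (k + 1))]
    · simp [add_assoc]
    · intro c _ hc
      rw [if_neg]
      intro h
      exact hc (by ext; exact h.symm)
    · simp
  have e3 : (Matrix.of fun (a : Fin k) (b : Fin (k + 1)) => u (s + a + 1 + b)) *
      (Matrix.of fun (a : Fin (k + 1)) (b : Fin k) => if (a : ℕ) = b + 1 then (1 : ℤ) else 0)
      = Matrix.of fun (a : Fin k) (b : Fin k) => u (s + a + b + 2) := by
    ext a b
    simp only [Matrix.mul_apply, Matrix.of_apply, mul_ite, mul_one, mul_zero]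
    rw [Finset.sum_eq_single (⟨b + 1, by omega⟩ : Fin (k + 1))]
    · simp only [if_true]; congr 1; omega
    · intro c _ hc
      rw [if_neg]
      intro h
      exact hc (by ext; exact h)
    · simp
  rw [e1, e2, e3, Matrix.det_neg, Fintype.card_fin] at key
  rw [hd, hd, mul_comm ((-1 : ℤ) ^ k), mul_assoc, ← key]
  congr 1
  ext i j
  rcases i with a | a <;> rcases j with b | b <;>
    simp only [hm, Matrix.of_apply, Matrix.fromBlocks_apply₁₁, Matrix.fromBlocks_apply₁₂,
      Matrix.fromBlocks_apply₂₁, Matrix.fromBlocks_apply₂₂, hx, Matrix.add_apply, Matrix.neg_apply,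
      dl]
  · congr 1; omega
  · congr 1; omega
  · congr 1; omega
  · rw [show (2 * s + 1 + 2 * (a : ℕ) + 2 * b + 2) / 2 = s + a + b + 1 by omega,
      show s + 1 + (a : ℕ) + b = s + a + b + 1 by omega]; ring

include hx in
theorem double_good (n : ℕ) (hu : ∀ m r, m ≤ (n + 1) / 2 → Good (hd u r m))
    (hdu : ∀ m r, m ≤ (n + 1) / 2 → Good (hd (dl u) r m)) (r : ℕ) : Good (hd x r n) := by
  rcases Nat.even_or_odd' r with ⟨s, rfl | rfl⟩
  · obtain ⟨p, q, hn, h1, h2, hp, hq⟩ := halves n
    rw [hn, double_even hx s p q h1 h2]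
    exact (hu _ _ (by omega)).mul (hdu _ _ (by omega))
  · rcases Nat.even_or_odd' n with ⟨k, rfl | rfl⟩
    · rw [show 2 * k = k + k by omega, double_odd_even hx s k]
      exact ((good_neg_one_pow k).mul (hdu _ _ (by omega))).mul (hu _ _ (by omega))
    · rw [show 2 * k + 1 = k + 1 + k by omega, double_odd_odd hx s k]
      exact ((good_neg_one_pow k).mul (hu _ _ (by omega))).mul (hdu _ _ (by omega))

end double

/-! ### Sequences with zeros at every second place -/

theorem det_anti {k : ℕ} (B C : Matrix (Fin k) (Fin k) ℤ) (hB : Good B.det) (hC : Good C.det) :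
    Good (Matrix.fromBlocks 0 B C 0).det := by
  have h : Matrix.fromBlocks 0 B C 0 =
      Matrix.fromBlocks (0 : Matrix (Fin k) (Fin k) ℤ) (1 : Matrix (Fin k) (Fin k) ℤ)
        (1 : Matrix (Fin k) (Fin k) ℤ) (0 : Matrix (Fin k) (Fin k) ℤ) *
        Matrix.fromBlocks C 0 0 B := by
    simp [Matrix.fromBlocks_multiply]
  have h1 : (Matrix.fromBlocks (0 : Matrix (Fin k) (Fin k) ℤ) (1 : Matrix (Fin k) (Fin k) ℤ)
        (1 : Matrix (Fin k) (Fin k) ℤ) (0 : Matrix (Fin k) (Fin k) ℤ)) *
      (Matrix.fromBlocks (0 : Matrix (Fin k) (Fin k) ℤ) (1 : Matrix (Fin k) (Fin k) ℤ)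
        (1 : Matrix (Fin k) (Fin k) ℤ) (0 : Matrix (Fin k) (Fin k) ℤ)) = 1 := by
    simp [Matrix.fromBlocks_multiply]
  have h2 := congrArg Matrix.det h1
  rw [Matrix.det_mul, Matrix.det_one] at h2
  have h3 : Good (Matrix.fromBlocks (0 : Matrix (Fin k) (Fin k) ℤ) (1 : Matrix (Fin k) (Fin k) ℤ)
        (1 : Matrix (Fin k) (Fin k) ℤ) (0 : Matrix (Fin k) (Fin k) ℤ)).det := by
    rcases mul_self_eq_one_iff.1 h2 with h | h
    · rw [h]; exact good_one
    · rw [h]; exact good_neg_one
  rw [h, Matrix.det_mul, Matrix.det_fromBlocks_zero₂₁]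
  exact h3.mul (hC.mul hB)

theorem det_zero_block {k : ℕ} (B : Matrix (Fin (k + 1)) (Fin k) ℤ)
    (C : Matrix (Fin k) (Fin (k + 1)) ℤ) : (Matrix.fromBlocks 0 B C 0).det = 0 := by
  have h : Matrix.fromBlocks 0 B C 0 =
      (Matrix.fromBlocks (Matrix.of fun (a : Fin (k + 1)) (b : Fin (k + 1)) =>
        if h : (b : ℕ) < k then B a ⟨b, h⟩ else 0) 0 0 (1 : Matrix (Fin k) (Fin k) ℤ)) *
      (Matrix.fromBlocks 0 (Matrix.of fun (a : Fin (k + 1)) (b : Fin k) =>
        if (a : ℕ) = b then (1 : ℤ) else 0) C 0) := by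
    rw [Matrix.fromBlocks_multiply]
    simp only [Matrix.mul_zero, Matrix.zero_mul, add_zero, zero_add, Matrix.one_mul]
    congr 1
    ext a b
    simp only [Matrix.mul_apply, Matrix.of_apply, mul_ite, mul_one, mul_zero]
    rw [Finset.sum_eq_single (⟨b, by omega⟩ : Fin (k + 1))]
    · simp
    · intro c _ hc
      rw [if_neg]
      intro h
      exact hc (by ext; exact h)
    · simp
  rw [h, Matrix.det_mul, Matrix.det_fromBlocks_zero₂₁]
  have h0 : (Matrix.of fun (a : Fin (k + 1)) (b : Fin (k + 1)) =>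
        if h : (b : ℕ) < k then B a ⟨b, h⟩ else 0).det = 0 := by
    apply Matrix.det_eq_zero_of_column_eq_zero (Fin.last k)
    intro i
    simp
  rw [h0]
  simp

section spread

variable {y u : ℕ → ℤ}

theorem spread_good (h0 : ∀ m, y (2 * m) = u m) (h1 : ∀ m, y (2 * m + 1) = 0) (n : ℕ)
    (hu : ∀ m r, m ≤ (n + 1) / 2 → Good (hd u r m)) (r : ℕ) : Good (hd y r n) := by
  obtain ⟨p, q, hn, hpq, hqp, hp, hq⟩ := halves n
  rcases Nat.even_or_odd' r with ⟨s, rfl | rfl⟩
  · rw [hn, hd_split _ _ _ _ hpq hqp]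
    have e : (Matrix.fromBlocks
      (Matrix.of fun a b : Fin p => y (2 * s + 2 * a + 2 * b))
      (Matrix.of fun (a : Fin p) (b : Fin q) => y (2 * s + 2 * a + 2 * b + 1))
      (Matrix.of fun (a : Fin q) (b : Fin p) => y (2 * s + 2 * a + 2 * b + 1))
      (Matrix.of fun a b : Fin q => y (2 * s + 2 * a + 2 * b + 2))) =
      Matrix.fromBlocks (hm u s p) 0 0 (hm u (s + 1) q) := by
      ext i j
      rcases i with a | a <;> rcases j with b | b <;>
        simp only [hm, Matrix.of_apply, Matrix.fromBlocks_apply₁₁, Matrix.fromBlocks_apply₁₂,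
          Matrix.fromBlocks_apply₂₁, Matrix.fromBlocks_apply₂₂, Matrix.zero_apply]
      · rw [← h0]; congr 1; omega
      · rw [← h1 (s + a + b)]; congr 1; omega
      · rw [← h1 (s + a + b)]; congr 1; omega
      · rw [← h0]; congr 1; omega
    rw [e, Matrix.det_fromBlocks_zero₂₁]
    exact (hu _ _ (by omega)).mul (hu _ _ (by omega))
  · have e : (Matrix.fromBlocks
      (Matrix.of fun a b : Fin p => y (2 * s + 1 + 2 * a + 2 * b))
      (Matrix.of fun (a : Fin p) (b : Fin q) => y (2 * s + 1 + 2 * a + 2 * b + 1))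
      (Matrix.of fun (a : Fin q) (b : Fin p) => y (2 * s + 1 + 2 * a + 2 * b + 1))
      (Matrix.of fun a b : Fin q => y (2 * s + 1 + 2 * a + 2 * b + 2))) =
      Matrix.fromBlocks 0 (Matrix.of fun (a : Fin p) (b : Fin q) => u (s + 1 + a + b))
        (Matrix.of fun (a : Fin q) (b : Fin p) => u (s + 1 + a + b)) 0 := by
      ext i j
      rcases i with a | a <;> rcases j with b | b <;>
        simp only [Matrix.of_apply, Matrix.fromBlocks_apply₁₁, Matrix.fromBlocks_apply₁₂,
          Matrix.fromBlocks_apply₂₁, Matrix.fromBlocks_apply₂₂, Matrix.zero_apply]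
      · rw [← h1 (s + a + b)]; congr 1; omega
      · rw [← h0]; congr 1; omega
      · rw [← h0]; congr 1; omega
      · rw [← h1 (s + a + b + 1)]; congr 1; omega
    rw [hn, hd_split _ _ _ _ hpq hqp, e]
    clear e
    rcases Nat.lt_or_ge q p with h | h
    · obtain rfl : p = q + 1 := by omega
      rw [det_zero_block]
      exact good_zero
    · obtain rfl : p = q := by omega
      exact det_anti _ _ (hu _ (s + 1) (by omega)) (hu _ (s + 1) (by omega))

theorem spread_good' (h0 : ∀ m, y (2 * m) = 0) (h1 : ∀ m, y (2 * m + 1) = u m) (n : ℕ)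
    (hu : ∀ m r, m ≤ (n + 1) / 2 → Good (hd u r m)) (r : ℕ) : Good (hd y r n) := by
  obtain ⟨p, q, hn, hpq, hqp, hp, hq⟩ := halves n
  rcases Nat.even_or_odd' r with ⟨s, rfl | rfl⟩
  · have e : (Matrix.fromBlocks
      (Matrix.of fun a b : Fin p => y (2 * s + 2 * a + 2 * b))
      (Matrix.of fun (a : Fin p) (b : Fin q) => y (2 * s + 2 * a + 2 * b + 1))
      (Matrix.of fun (a : Fin q) (b : Fin p) => y (2 * s + 2 * a + 2 * b + 1))
      (Matrix.of fun a b : Fin q => y (2 * s + 2 * a + 2 * b + 2))) =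
      Matrix.fromBlocks 0 (Matrix.of fun (a : Fin p) (b : Fin q) => u (s + a + b))
        (Matrix.of fun (a : Fin q) (b : Fin p) => u (s + a + b)) 0 := by
      ext i j
      rcases i with a | a <;> rcases j with b | b <;>
        simp only [Matrix.of_apply, Matrix.fromBlocks_apply₁₁, Matrix.fromBlocks_apply₁₂,
          Matrix.fromBlocks_apply₂₁, Matrix.fromBlocks_apply₂₂, Matrix.zero_apply]
      · rw [← h0 (s + a + b)]; congr 1; omega
      · rw [← h1]; congr 1; omega
      · rw [← h1]; congr 1; omega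
      · rw [← h0 (s + a + b + 1)]; congr 1; omega
    rw [hn, hd_split _ _ _ _ hpq hqp, e]
    clear e
    rcases Nat.lt_or_ge q p with h | h
    · obtain rfl : p = q + 1 := by omega
      rw [det_zero_block]
      exact good_zero
    · obtain rfl : p = q := by omega
      exact det_anti _ _ (hu _ s (by omega)) (hu _ s (by omega))
  · rw [hn, hd_split _ _ _ _ hpq hqp]
    have e : (Matrix.fromBlocks
      (Matrix.of fun a b : Fin p => y (2 * s + 1 + 2 * a + 2 * b))
      (Matrix.of fun (a : Fin p) (b : Fin q) => y (2 * s + 1 + 2 * a + 2 * b + 1))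
      (Matrix.of fun (a : Fin q) (b : Fin p) => y (2 * s + 1 + 2 * a + 2 * b + 1))
      (Matrix.of fun a b : Fin q => y (2 * s + 1 + 2 * a + 2 * b + 2))) =
      Matrix.fromBlocks (hm u s p) 0 0 (hm u (s + 1) q) := by
      ext i j
      rcases i with a | a <;> rcases j with b | b <;>
        simp only [hm, Matrix.of_apply, Matrix.fromBlocks_apply₁₁, Matrix.fromBlocks_apply₁₂,
          Matrix.fromBlocks_apply₂₁, Matrix.fromBlocks_apply₂₂, Matrix.zero_apply]
      · rw [← h1]; congr 1; omega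
      · rw [← h0 (s + a + b + 1)]; congr 1; omega
      · rw [← h0 (s + a + b + 1)]; congr 1; omega
      · rw [← h1]; congr 1; omega
    rw [e, Matrix.det_fromBlocks_zero₂₁]
    exact (hu _ _ (by omega)).mul (hu _ _ (by omega))

end spread

/-! ### Alternating signs -/

theorem twist_good {x y : ℕ → ℤ} (c : ℤ) (hc : Good c) (t : ℕ)
    (h : ∀ m, y m = c * (-1) ^ m * x (m + t)) (n r : ℕ) (hx : Good (hd x (r + t) n)) :
    Good (hd y r n) := by
  have e : hm y r n = (c * (-1) ^ r) • (Matrix.diagonal (fun i : Fin n => (-1 : ℤ) ^ (i : ℕ)) *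
      hm x (r + t) n * Matrix.diagonal (fun i : Fin n => (-1 : ℤ) ^ (i : ℕ))) := by
    ext i j
    rw [Matrix.smul_apply, Matrix.mul_diagonal, Matrix.diagonal_mul]
    simp only [hm, Matrix.of_apply, smul_eq_mul, h]
    rw [show r + (i : ℕ) + j + t = r + t + i + j by omega, pow_add, pow_add]
    ring
  rw [hd, e, Matrix.det_smul, Matrix.det_mul, Matrix.det_mul, Matrix.det_diagonal]
  refine ((hc.mul (good_neg_one_pow r)).pow _).mul (((?_ : Good _).mul hx).mul ?_) <;>
  · rw [Finset.prod_pow_eq_pow_sum]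
    exact good_neg_one_pow _

end Q226.TM
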