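import Pool.Agent.Q226.TM.Hankel

set_option autoImplicit false

/-!
# The sequence of sums of distinct powers of four
-/

namespace Q226.TM

/-- `1` if all digits of `n` in base `4` are `0` or `1`, otherwise `0` -/
def tau (n : ℕ) : ℤ := if ∀ d ∈ Nat.digits 4 n, d < 2 then 1 else 0

theorem tau_zero : tau 0 = 1 := by simp [tau]

theorem tau_rec (n : ℕ) : tau n = if n % 4 < 2 then tau (n / 4) else 0 := by
  rcases Nat.eq_zero_or_pos n with rfl | hn
  · simp
  · unfold tau
    rw [Nat.digits_def' (by norm_num) hn]
    simp only [List.mem_cons, forall_eq_or_imp]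
    by_cases h : n % 4 < 2 <;> simp [h]

theorem tau_good (n : ℕ) : tau n = 0 ∨ tau n = 1 := by
  unfold tau
  split_ifs <;> simp

/-- the sequence `tau` with zeros in between -/
def kap (n : ℕ) : ℤ := if n % 2 = 0 then tau (n / 2) else 0

theorem kap_even (m : ℕ) : kap (2 * m) = tau m := by
  simp [kap]

theorem kap_odd (m : ℕ) : kap (2 * m + 1) = 0 := by
  rw [kap, if_neg (by omega)]

theorem tau_eq_kap (m : ℕ) : tau m = kap (m / 2) := by
  rw [tau_rec, kap]
  by_cases h : m % 4 < 2
  · rw [if_pos h, if_pos (by omega), Nat.div_div_eq_div_mul]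
  · rw [if_neg h, if_neg (by omega)]

theorem dl_tau_even (m : ℕ) : dl tau (2 * m) = 0 := by
  rw [dl, tau_eq_kap, tau_eq_kap, show (2 * m + 1) / 2 = m by omega, show 2 * m / 2 = m by omega,
    sub_self]

theorem dl_tau_odd (m : ℕ) : dl tau (2 * m + 1) = dl kap m := by
  rw [dl, tau_eq_kap, tau_eq_kap, show (2 * m + 1 + 1) / 2 = m + 1 by omega,
    show (2 * m + 1) / 2 = m by omega, dl]

/-- the doubled sequence -/
def dbl (m : ℕ) : ℤ := tau (m / 2)

theorem dl_kap (m : ℕ) : dl kap m = (-1) * (-1) ^ m * dbl (m + 1) := by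
  rcases Nat.even_or_odd' m with ⟨b, rfl | rfl⟩
  · rw [dl, kap_odd, kap_even, dbl, show (2 * b + 1) / 2 = b by omega]
    simp
  · rw [dl, show 2 * b + 1 + 1 = 2 * (b + 1) by omega, kap_odd, kap_even, dbl,
      show 2 * (b + 1) / 2 = b + 1 by omega]
    simp [pow_succ]

theorem hd_zero (x : ℕ → ℤ) (r : ℕ) : hd x r 0 = 1 := by
  simp [hd]

theorem hd_one (x : ℕ → ℤ) (r : ℕ) : hd x r 1 = x r := by
  simp [hd, hm]

theorem main_ind (n : ℕ) : (∀ r, Good (hd tau r n)) ∧ ∀ r, Good (hd (dl tau) r n) := by
  induction n using Nat.strong_induction_on with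
  | _ n ih =>
    rcases Nat.lt_or_ge n 2 with hn | hn
    · rcases Nat.lt_or_ge n 1 with h0 | h0
      · obtain rfl : n = 0 := by omega
        exact ⟨fun r => by rw [hd_zero]; exact good_one, fun r => by rw [hd_zero]; exact good_one⟩
      · obtain rfl : n = 1 := by omega
        refine ⟨fun r => ?_, fun r => ?_⟩
        · rw [hd_one]
          rcases tau_good r with h | h <;> rw [h]
          · exact good_zero
          · exact good_one
        · rw [hd_one, dl]
          rcases tau_good r with h | h <;> rcases tau_good (r + 1) with h' | h' <;> rw [h, h'] <;>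
            simp [Good]
    · have hC : ∀ m r, m < n → Good (hd dbl r m) := fun m r hm =>
        double_good (x := dbl) (u := tau) (fun _ => rfl) m
          (fun k s hk => (ih k (by omega)).1 s) (fun k s hk => (ih k (by omega)).2 s) r
      have hK : ∀ m r, m < n → Good (hd kap r m) := fun m r hm =>
        spread_good (y := kap) (u := tau) kap_even kap_odd m (fun k s hk => (ih k (by omega)).1 s) r
      have hL : ∀ m r, m < n → Good (hd (dl kap) r m) := fun m r hm =>
        twist_good (-1) good_neg_one 1 dl_kap m r (hC m (r + 1) hm)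
      refine ⟨fun r => ?_, fun r => ?_⟩
      · exact double_good (x := tau) (u := kap) tau_eq_kap n
          (fun k s hk => hK k s (by omega)) (fun k s hk => hL k s (by omega)) r
      · exact spread_good' (y := dl tau) (u := dl kap) dl_tau_even dl_tau_odd n
          (fun k s hk => hL k s (by omega)) r

theorem dbl_good (n r : ℕ) : Good (hd dbl r n) :=
  double_good (x := dbl) (u := tau) (fun _ => rfl) n
    (fun k s _ => (main_ind k).1 s) (fun k s _ => (main_ind k).2 s) r

end Q226.TM
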