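import Pool.Agent.Q226.TM.Main

set_option autoImplicit false

/-!
# The Thue-Morse series over the field with two elements and its inverse
-/

namespace Q226.TM

open PowerSeries

/-- The Thue-Morse series `F`: the coefficient of `X ^ n` is the sum of the binary digits of `n`
modulo `2`. -/
noncomputable def thueMorse : PowerSeries (ZMod 2) :=
  PowerSeries.mk fun n => ((Nat.digits 2 n).sum : ZMod 2)

theorem two_zero : (2 : PowerSeries (ZMod 2)) = 0 := by
  have : (2 : PowerSeries (ZMod 2)) = PowerSeries.C (2 : ZMod 2) :=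
    (map_ofNat (PowerSeries.C (R := ZMod 2)) 2).symm
  rw [this, show (2 : ZMod 2) = 0 by decide, map_zero]

theorem sq_eq (G : PowerSeries (ZMod 2)) : G ^ 2 = PowerSeries.expand 2 two_ne_zero G := by
  have h := MvPowerSeries.map_frobenius_expand (R := ZMod 2) (σ := Unit) 2 two_ne_zero (f := G)
  rw [show (frobenius (ZMod 2) 2) = RingHom.id _ by
    ext x; fin_cases x <;> rfl] at h
  rw [MvPowerSeries.map_id] at h
  exact h.symm

theorem coeff_sq (G : PowerSeries (ZMod 2)) (n : ℕ) :
    coeff n (G ^ 2) = if n % 2 = 0 then coeff (n / 2) G else 0 := by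
  rw [sq_eq, PowerSeries.coeff_expand]
  simp only [Nat.dvd_iff_mod_eq_zero]

theorem coeff_fourth (G : PowerSeries (ZMod 2)) (n : ℕ) :
    coeff n (G ^ 4) = if n % 4 = 0 then coeff (n / 4) G else 0 := by
  rw [show G ^ 4 = (G ^ 2) ^ 2 by ring, coeff_sq, coeff_sq]
  by_cases h : n % 4 = 0
  · rw [if_pos h, if_pos (by omega), if_pos (by omega), Nat.div_div_eq_div_mul]
  · rw [if_neg h]
    by_cases h2 : n % 2 = 0
    · rw [if_pos h2, if_neg (by omega)]
    · rw [if_neg h2]

/-- the series of the even powers -/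
noncomputable def ev : PowerSeries (ZMod 2) := PowerSeries.mk fun n => if n % 2 = 0 then 1 else 0

theorem ev_mul : (1 + X ^ 2) * ev = 1 := by
  ext n
  rw [add_mul, one_mul, map_add, coeff_X_pow_mul', coeff_one]
  simp only [ev, coeff_mk]
  rcases Nat.lt_or_ge n 2 with h | h
  · interval_cases n <;> simp
  · rw [if_pos h, if_neg (show ¬ n = 0 by omega)]
    by_cases h2 : n % 2 = 0
    · rw [if_pos h2, if_pos (show (n - 2) % 2 = 0 by omega)]; decide
    · rw [if_neg h2, if_neg (show ¬ (n - 2) % 2 = 0 by omega)]; decide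

theorem dig_even (n : ℕ) : (Nat.digits 2 (2 * n)).sum = (Nat.digits 2 n).sum := by
  rcases Nat.eq_zero_or_pos n with rfl | h
  · simp
  · rw [Nat.digits_def' (by norm_num) (by omega), List.sum_cons]
    simp

theorem dig_odd (n : ℕ) : (Nat.digits 2 (2 * n + 1)).sum = (Nat.digits 2 n).sum + 1 := by
  rw [Nat.digits_def' (by norm_num) (by omega), List.sum_cons,
    show (2 * n + 1) % 2 = 1 by omega, show (2 * n + 1) / 2 = n by omega, add_comm]

theorem F_eq : thueMorse = (1 + X) * thueMorse ^ 2 + X * ev := by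
  ext n
  rw [add_mul, one_mul, map_add, map_add]
  rcases n with _ | n
  · rw [coeff_zero_X_mul, coeff_zero_X_mul, coeff_sq]
    simp [thueMorse]
  · rw [coeff_succ_X_mul, coeff_succ_X_mul, coeff_sq, coeff_sq]
    simp only [thueMorse, ev, coeff_mk]
    rcases Nat.even_or_odd' n with ⟨k, rfl | rfl⟩
    · rw [if_neg (by omega), if_pos (by omega), if_pos (by omega), dig_odd,
        show 2 * k / 2 = k by omega]
      push_cast
      ring
    · rw [if_pos (by omega), if_neg (by omega), if_neg (by omega),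
        show 2 * k + 1 + 1 = 2 * (k + 1) by omega, dig_even,
        show 2 * (k + 1) / 2 = k + 1 by omega]
      ring

theorem F_quad : (1 + X) ^ 2 * thueMorse = (1 + X) ^ 3 * thueMorse ^ 2 + X := by
  have h1 := F_eq
  have h2 := ev_mul
  have h3 := two_zero
  linear_combination (1 + X) ^ 2 * h1 + X * h2 + X ^ 2 * ev * h3

/-- the cubic equation of a right inverse -/
theorem cubic (G : PowerSeries (ZMod 2)) (h0 : constantCoeff G = 0)
    (h : thueMorse.subst G = X) : (1 + G) ^ 2 * X = (1 + G) ^ 3 * X ^ 2 + G := by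
  have hs : HasSubst G := HasSubst.of_constantCoeff_zero' h0
  have e := congrArg (substAlgHom hs) F_quad
  simp only [map_mul, map_add, map_pow, map_one, substAlgHom_X] at e
  rw [coe_substAlgHom] at e
  rw [h] at e
  exact e

theorem quartic (G : PowerSeries (ZMod 2)) (h0 : constantCoeff G = 0)
    (h : thueMorse.subst G = X) : (1 + X) * G = X ^ 3 * G ^ 4 + X ^ 3 + X := by
  have h1 := cubic G h0 h
  have h3 := two_zero
  linear_combination (X * G + X + 1) * h1 +
    (G - X + 2 * X ^ 3 * G + 3 * X ^ 3 * G ^ 2 + 2 * X ^ 3 * G ^ 3) * h3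

theorem coeff_rec (G : PowerSeries (ZMod 2)) (h0 : constantCoeff G = 0)
    (h : thueMorse.subst G = X) (m : ℕ) : coeff (m + 1) G = coeff m G +
      (if 2 ≤ m ∧ (m - 2) % 4 = 0 then coeff ((m - 2) / 4) G else 0) +
      (if m = 2 then 1 else 0) + if m = 0 then 1 else 0 := by
  have e := congrArg (coeff (m + 1)) (quartic G h0 h)
  rw [add_mul, one_mul, map_add, coeff_succ_X_mul, map_add, map_add, coeff_X_pow, coeff_X,
    coeff_X_pow_mul', coeff_fourth] at e
  have e2 : coeff (m + 1) G = coeff m G + (coeff (m + 1) G + coeff m G) := by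
    have : coeff m G + coeff m G = 0 := CharTwo.add_self_eq_zero _
    linear_combination -this
  rw [e2, e]
  have e3 : (if 3 ≤ m + 1 then if (m + 1 - 3) % 4 = 0 then coeff ((m + 1 - 3) / 4) G else 0 else 0)
      = (if 2 ≤ m ∧ (m - 2) % 4 = 0 then coeff ((m - 2) / 4) G else 0 : ZMod 2) := by
    by_cases h1 : 2 ≤ m
    · rw [if_pos (by omega), show m + 1 - 3 = m - 2 by omega]
      simp only [h1, true_and]
    · rw [if_neg (by omega), if_neg (by omega)]
  rw [e3]
  have e4 : (if m + 1 = 3 then (1 : ZMod 2) else 0) = if m = 2 then 1 else 0 := by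
    by_cases h1 : m = 2
    · rw [if_pos (by omega), if_pos h1]
    · rw [if_neg (by omega), if_neg h1]
  have e5 : (if m + 1 = 1 then (1 : ZMod 2) else 0) = if m = 0 then 1 else 0 := by
    by_cases h1 : m = 0
    · rw [if_pos (by omega), if_pos h1]
    · rw [if_neg (by omega), if_neg h1]
  rw [e4, e5]
  ring

theorem unique (G G' : PowerSeries (ZMod 2)) (h0 : constantCoeff G = 0)
    (h : thueMorse.subst G = X) (h0' : constantCoeff G' = 0)
    (h' : thueMorse.subst G' = X) : G = G' := by
  ext n
  induction n using Nat.strong_induction_on with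
  | _ n ih =>
    rcases n with _ | m
    · rw [coeff_zero_eq_constantCoeff_apply, coeff_zero_eq_constantCoeff_apply, h0, h0']
    · rw [coeff_rec G h0 h, coeff_rec G' h0' h', ih m (by omega)]
      congr 3
      by_cases hm : 2 ≤ m ∧ (m - 2) % 4 = 0
      · rw [if_pos hm, if_pos hm, ih _ (by omega)]
      · rw [if_neg hm, if_neg hm]

theorem coeff_G (G : PowerSeries (ZMod 2)) (h0 : constantCoeff G = 0)
    (h : thueMorse.subst G = X) (m : ℕ) (hm : 1 ≤ m) :
    coeff m G = ((tau ((m + 1) / 2) : ℤ) : ZMod 2) := by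
  have c0 : coeff 0 G = 0 := by rw [coeff_zero_eq_constantCoeff_apply, h0]
  have R := coeff_rec G h0 h
  have c1 : coeff 1 G = 1 := by
    rw [R 0, c0]; simp
  have t1 : tau 1 = 1 := by rw [tau_rec]; simp [tau_zero]
  have t2 : tau 2 = 0 := by rw [tau_rec]; simp
  induction m using Nat.strong_induction_on with
  | _ m ih =>
    obtain ⟨m, rfl⟩ : ∃ k, m = k + 1 := ⟨m - 1, by omega⟩
    rcases Nat.eq_zero_or_pos m with rfl | hm0
    · rw [c1]; norm_num; rw [t1]; simp
    · rw [R m, ih m (by omega) hm0, if_neg (show ¬ m = 0 by omega), add_zero]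
      by_cases h2 : m = 2
      · subst h2
        norm_num
        rw [h0, t1, t2]
        decide
      · rw [if_neg h2, add_zero]
        by_cases h4 : 2 ≤ m ∧ (m - 2) % 4 = 0
        · rw [if_pos h4, ih ((m - 2) / 4) (by omega) (by omega), ← Int.cast_add]
          obtain ⟨n, hn⟩ : ∃ n, m = 4 * n + 2 := ⟨(m - 2) / 4, by omega⟩
          subst hn
          rw [show (4 * n + 2 + 1) / 2 = 2 * n + 1 by omega,
            show (4 * n + 2 - 2) / 4 = n by omega, show (4 * n + 2 + 1 + 1) / 2 = 2 * n + 2 by omega]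
          rw [tau_eq_kap (2 * n + 1), tau_eq_kap (2 * n + 2), show (2 * n + 1) / 2 = n by omega,
            show (2 * n + 2) / 2 = n + 1 by omega]
          rcases Nat.even_or_odd' n with ⟨b, rfl | rfl⟩
          · rw [kap_even, kap_odd, show (2 * b + 1) / 2 = b by omega]
            rw [Int.cast_add, CharTwo.add_self_eq_zero, Int.cast_zero]
          · rw [kap_odd, show 2 * b + 1 + 1 = 2 * (b + 1) by omega, kap_even,
              show 2 * (b + 1) / 2 = b + 1 by omega, zero_add]
        · rw [if_neg h4, add_zero, tau_eq_kap ((m + 1) / 2), tau_eq_kap ((m + 1 + 1) / 2),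
            show (m + 1) / 2 / 2 = (m + 1 + 1) / 2 / 2 by omega]

theorem val_coeff (G : PowerSeries (ZMod 2)) (h0 : constantCoeff G = 0)
    (h : thueMorse.subst G = X) (m : ℕ) (hm : 1 ≤ m) :
    ((coeff m G).val : ℤ) = dbl (m + 1) := by
  rw [coeff_G G h0 h m hm, dbl]
  rcases tau_good ((m + 1) / 2) with e | e <;> rw [e] <;> decide

theorem hankel_good (G : PowerSeries (ZMod 2)) (h0 : constantCoeff G = 0)
    (h : thueMorse.subst G = X) (p n : ℕ) :
    Good (Matrix.of fun i j : Fin n => ((coeff (p + i + j + 1) G).val : ℤ)).det := by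
  have e : (Matrix.of fun i j : Fin n => ((coeff (p + i + j + 1) G).val : ℤ)) = hm dbl (p + 2) n := by
    ext i j
    simp only [Matrix.of_apply, hm]
    rw [val_coeff G h0 h _ (by omega)]
    congr 1
    omega
  rw [e]
  exact dbl_good n (p + 2)

theorem const_F : constantCoeff thueMorse = 0 := by
  rw [← coeff_zero_eq_constantCoeff_apply]
  simp [thueMorse]

theorem coeff_one_F : coeff 1 thueMorse = 1 := by
  simp [thueMorse]

theorem exists_inverse : ∃ G : PowerSeries (ZMod 2), constantCoeff G = 0 ∧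
    thueMorse.subst G = X ∧ G.subst thueMorse = X := by
  have hu : IsUnit (coeff 1 thueMorse) := by rw [coeff_one_F]; exact isUnit_one
  exact ⟨thueMorse.substInvOfIsUnit hu, constantCoeff_substInvOfIsUnit _ hu,
    subst_substInvOfIsUnit_right _ const_F hu, subst_substInvOfIsUnit_left _ const_F hu⟩

end Q226.TM
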